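import Pool.Agent.U115.WN.Stm

/-!
# Package BQB of project WN (helper115)

The matrices `B Q Bᵀ` with `B` a basis of a primitive lattice and `Q` primitive with nonzero determinant.
-/

set_option autoImplicit false

open scoped Classical
open Matrix

namespace Pool.Agent.U660.WN

open Pool.Agent.U115.WM Pool.Agent.U115.WN

/-- left cancellation -/
theorem lcan {n k m : ℕ} (B : Matrix (Fin n) (Fin k) ℤ) (hI : Inj B)
    (X Y : Matrix (Fin k) (Fin m) ℤ) (h : B * X = B * Y) : X = Y := by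
  have h1 : B * (X - Y) = 0 := by rw [Matrix.mul_sub, h, sub_self]
  have h2 : ∀ j, (fun i => (X - Y) i j) = 0 := by
    intro j
    apply hI
    funext l
    have h3 := congrFun (congrFun h1 l) j
    rw [Matrix.mul_apply] at h3
    simpa [Matrix.mulVec, dotProduct] using h3
  ext i j
  have h4 := congrFun (h2 j) i
  simp only [Matrix.sub_apply, Pi.zero_apply] at h4
  linarith

/-- division by `d` inside of a primitive lattice -/
theorem ldiv {n k m : ℕ} (B : Matrix (Fin n) (Fin k) ℤ) (hI : Inj B) (hS : Sat (lat B))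
    (M : Matrix (Fin n) (Fin m) ℤ) (X : Matrix (Fin k) (Fin m) ℤ) (d : ℤ) (hd : d ≠ 0)
    (h : d • M = B * X) : ∃ Y : Matrix (Fin k) (Fin m) ℤ, d • Y = X := by
  have h1 : ∀ j : Fin m, ∃ y : Fin k → ℤ, B *ᵥ y = fun l => M l j := by
    intro j
    have h2 : (fun l => M l j) ∈ lat B := by
      apply hS _ d hd
      refine ⟨fun i => X i j, ?_⟩
      funext l
      have h3 := congrFun (congrFun h l) j
      rw [Matrix.mul_apply] at h3
      simp only [Matrix.smul_apply] at h3
      simp only [Matrix.mulVec, dotProduct, Pi.smul_apply]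
      exact h3.symm
    exact h2
  choose y hy using h1
  refine ⟨Matrix.of fun i j => y j i, ?_⟩
  apply lcan B hI
  rw [← h]
  ext l j
  rw [Matrix.mul_apply]
  have h5 := congrFun (hy j) l
  simp only [Matrix.mulVec, dotProduct] at h5
  simp only [Matrix.smul_apply, Matrix.of_apply, smul_eq_mul]
  rw [← h5, Finset.mul_sum]
  exact Finset.sum_congr rfl fun i _ => by ring

/-- the Gram determinant is not zero -/
theorem gram_ne {n k : ℕ} (B : Matrix (Fin n) (Fin k) ℤ) (hI : Inj B) : (Bᵀ * B).det ≠ 0 := by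
  intro h0
  obtain ⟨c, hc, hc0⟩ := Matrix.exists_mulVec_eq_zero_iff.mpr h0
  apply hc
  apply hI
  have h1 : (B *ᵥ c) ⬝ᵥ (B *ᵥ c) = 0 := by
    have h2 : c ⬝ᵥ ((Bᵀ * B) *ᵥ c) = 0 := by rw [hc0, dotProduct_zero]
    rw [← Matrix.mulVec_mulVec, Matrix.dotProduct_mulVec, Matrix.vecMul_transpose] at h2
    exact h2
  exact dotProduct_self_eq_zero.mp h1

theorem t_BQB : S_BQB := by
  intro n k B Q hk hI hS hQ hP
  have hD := gram_ne B hI
  have hu : ∀ Q' : Matrix (Fin k) (Fin k) ℤ, B * Q * Bᵀ = B * Q' * Bᵀ → Q = Q' := by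
    intro Q' h
    rw [Matrix.mul_assoc, Matrix.mul_assoc] at h
    have h1 := lcan B hI _ _ h
    have h2 := congrArg Matrix.transpose h1
    rw [Matrix.transpose_mul, Matrix.transpose_mul, Matrix.transpose_transpose] at h2
    have h3 := lcan B hI _ _ h2
    exact Matrix.transpose_injective h3
  refine ⟨?_, ?_, ?_, hu⟩
  · intro d hd
    have hd0 : d ≠ 0 := by
      rintro rfl
      have h1 : B * Q * Bᵀ = B * (0 : Matrix (Fin k) (Fin k) ℤ) * Bᵀ := by
        ext i j
        have h2 := hd i j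
        rw [zero_dvd_iff] at h2
        rw [h2]
        simp
      have h3 := hu 0 h1
      apply hQ
      rw [h3]
      have hne : Nonempty (Fin k) := ⟨⟨0, hk⟩⟩
      exact Matrix.det_zero
    choose M hM using hd
    have h1 : d • (Matrix.of M : Matrix (Fin n) (Fin n) ℤ) = B * (Q * Bᵀ) := by
      rw [← Matrix.mul_assoc]
      ext i j
      rw [hM i j]
      simp
    obtain ⟨Y, hY⟩ := ldiv B hI hS _ _ d hd0 h1
    have h2 : d • Yᵀ = B * Qᵀ := by
      rw [← Matrix.transpose_smul, hY, Matrix.transpose_mul, Matrix.transpose_transpose]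
    obtain ⟨Z, hZ⟩ := ldiv B hI hS _ _ d hd0 h2
    apply hP d
    intro i j
    have h3 := congrFun (congrFun hZ j) i
    rw [Matrix.transpose_apply] at h3
    rw [← h3, Matrix.smul_apply, smul_eq_mul]
    exact dvd_mul_right _ _
  · set B' := B.map (Int.cast : ℤ → ℚ) with hB'
    set Q' := Q.map (Int.cast : ℤ → ℚ) with hQ'
    have hmul : ∀ {a b c : ℕ} (X : Matrix (Fin a) (Fin b) ℤ) (Y : Matrix (Fin b) (Fin c) ℤ),
        (X * Y).map (Int.cast : ℤ → ℚ) = X.map (Int.cast : ℤ → ℚ) * Y.map (Int.cast : ℤ → ℚ) := by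
      intro a b c X Y
      exact Matrix.map_mul (f := Int.castRingHom ℚ)
    have hA : (B * Q * Bᵀ).map (Int.cast : ℤ → ℚ) = B' * Q' * B'ᵀ := by
      rw [hmul, hmul, Matrix.transpose_map]
    have hdet : ∀ {a : ℕ} (X : Matrix (Fin a) (Fin a) ℤ), X.det ≠ 0 →
        IsUnit (X.map (Int.cast : ℤ → ℚ)) := by
      intro a X hX
      rw [Matrix.isUnit_iff_isUnit_det, isUnit_iff_ne_zero]
      have h1 : (X.map (Int.cast : ℤ → ℚ)).det = ((X.det : ℤ) : ℚ) := by
        have h2 := (Int.castRingHom ℚ).map_det X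
        exact h2.symm
      rw [h1]
      exact_mod_cast hX
    rw [hA]
    apply le_antisymm
    · calc (B' * Q' * B'ᵀ).rank ≤ (B' * Q').rank := Matrix.rank_mul_le_left _ _
        _ ≤ Q'.rank := Matrix.rank_mul_le_right _ _
        _ ≤ k := by
          have := Matrix.rank_le_width Q'
          simpa using this
    · have hG : IsUnit (B'ᵀ * B') := by
        have h1 := hdet (Bᵀ * B) hD
        rw [hmul, Matrix.transpose_map] at h1
        exact h1
      have h2 : IsUnit (B'ᵀ * B' * Q' * (B'ᵀ * B')) := (hG.mul (hdet Q hQ)).mul hG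
      have h3 := Matrix.rank_of_isUnit _ h2
      rw [Fintype.card_fin] at h3
      calc k = (B'ᵀ * B' * Q' * (B'ᵀ * B')).rank := h3.symm
        _ = (B'ᵀ * (B' * Q' * B'ᵀ) * B').rank := by
          congr 1
          simp only [Matrix.mul_assoc]
        _ ≤ (B'ᵀ * (B' * Q' * B'ᵀ)).rank := Matrix.rank_mul_le_left _ _
        _ ≤ (B' * Q' * B'ᵀ).rank := Matrix.rank_mul_le_right _ _
  · ext v
    constructor
    · rintro ⟨d, hd, w, hw⟩
      apply hS v d hd
      refine ⟨(Q * Bᵀ) *ᵥ w, ?_⟩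
      simp only
      rw [hw, Matrix.mulVec_mulVec, Matrix.mul_assoc]
    · rintro ⟨c, rfl⟩
      refine ⟨(Bᵀ * B).det * Q.det, mul_ne_zero hD hQ,
        B *ᵥ ((Bᵀ * B).adjugate *ᵥ (Q.adjugate *ᵥ c)), ?_⟩
      simp only [Matrix.mulVec_mulVec]
      have h1 : B * Q * Bᵀ * (B * ((Bᵀ * B).adjugate * Q.adjugate)) =
          ((Bᵀ * B).det * Q.det) • B := by
        calc B * Q * Bᵀ * (B * ((Bᵀ * B).adjugate * Q.adjugate))
            = B * (Q * (((Bᵀ * B) * (Bᵀ * B).adjugate) * Q.adjugate)) := by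
              simp only [Matrix.mul_assoc]
          _ = B * (Q * (((Bᵀ * B).det • (1 : Matrix (Fin k) (Fin k) ℤ)) * Q.adjugate)) := by
              rw [Matrix.mul_adjugate]
          _ = (Bᵀ * B).det • (B * (Q * Q.adjugate)) := by
              rw [Matrix.smul_mul, Matrix.one_mul, Matrix.mul_smul, Matrix.mul_smul]
          _ = ((Bᵀ * B).det * Q.det) • B := by
              rw [Matrix.mul_adjugate, Matrix.mul_smul, Matrix.mul_one, smul_smul]
      rw [h1, Matrix.smul_mulVec]

end Pool.Agent.U660.WN
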